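import Pool.Agent.Helper31.CY.St1

/-! # CY MODULE IMQ: implicit function theorem, graph over the second coordinate -/

set_option autoImplicit false

open Set Topology Filter

namespace Pool.Agent.Helper18.CY

open Pool.Agent.Helper31.CY

private theorem fd_swap (F : ℝ × ℝ → ℝ) (w v : ℝ × ℝ) :
    fderiv ℝ (fun x => F (Prod.swap x)) w v = fderiv ℝ F (Prod.swap w) (Prod.swap v) := by
  have h := (ContinuousLinearEquiv.prodComm ℝ ℝ ℝ).comp_right_fderiv (f := F) (x := w)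
  have h2 := congrArg (fun L : (ℝ × ℝ) →L[ℝ] ℝ => L v) h
  exact h2

private theorem D1_swap (F : ℝ × ℝ → ℝ) :
    D1 (fun x => F (Prod.swap x)) = fun w => D2 F (Prod.swap w) := by
  funext w
  exact fd_swap F w (1, 0)

private theorem D2_swap (F : ℝ × ℝ → ℝ) :
    D2 (fun x => F (Prod.swap x)) = fun w => D1 F (Prod.swap w) := by
  funext w
  exact fd_swap F w (0, 1)

private theorem symm_D {F : ℝ × ℝ → ℝ} {V : Set (ℝ × ℝ)} (hV : IsOpen V) (hF : ContDiffOn ℝ 2 F V)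
    {p : ℝ × ℝ} (hp : p ∈ V) : D1 (D2 F) p = D2 (D1 F) p := by
  have hc : ContDiffAt ℝ 2 F p := hF.contDiffAt (hV.mem_nhds hp)
  have hs : IsSymmSndFDerivAt ℝ F p := hc.isSymmSndFDerivAt (by simp)
  have hd : DifferentiableAt ℝ (fderiv ℝ F) p :=
    (hc.fderiv_right (m := 1) (by norm_num)).differentiableAt (by norm_num)
  have h1 : ∀ v w : ℝ × ℝ, fderiv ℝ (fun x => fderiv ℝ F x v) p w = fderiv ℝ (fderiv ℝ F) p w v := by
    intro v w
    have h := (hd.hasFDerivAt.clm_apply (hasFDerivAt_const v p)).fderiv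
    rw [h]
    simp
  show fderiv ℝ (fun x => fderiv ℝ F x (0, 1)) p (1, 0) =
    fderiv ℝ (fun x => fderiv ℝ F x (1, 0)) p (0, 1)
  rw [h1, h1]
  exact hs.eq _ _

theorem hIMQ (hIMP : StIMP) : StIMQ := by
  intro F V q hV hq hF h0 h1
  have hsw : Continuous (Prod.swap : ℝ × ℝ → ℝ × ℝ) := continuous_swap
  have hV' : IsOpen (Prod.swap ⁻¹' V) := hV.preimage hsw
  have hcd : ContDiff ℝ 2 (Prod.swap : ℝ × ℝ → ℝ × ℝ) :=
    (ContinuousLinearEquiv.prodComm ℝ ℝ ℝ).contDiff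
  have hF' : ContDiffOn ℝ 2 (fun x => F (Prod.swap x)) (Prod.swap ⁻¹' V) :=
    hF.comp hcd.contDiffOn (fun x hx => hx)
  obtain ⟨W, W', W'', ε, hε, hW0, hbox, hs⟩ := hIMP (fun x => F (Prod.swap x)) (Prod.swap ⁻¹' V)
    (Prod.swap q) hV' (by simpa using hq) hF' (by simpa using h0) (by
      rw [D2_swap]
      simpa using h1)
  refine ⟨W, W', W'', ε, hε, hW0, ?_, ?_⟩
  · intro x hx
    have hx' : Prod.swap x ∈ box (Prod.swap q) ε := ⟨hx.2, hx.1⟩
    exact hbox _ hx'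
  · intro s hsq
    obtain ⟨a1, a2, a3, a4, a5, a6, a7⟩ := hs s hsq
    have a1' : (W s, s) ∈ V := a1
    simp only [D1_swap, D2_swap] at a5 a6 a7
    refine ⟨a1', a2, a3, a4, a5, a6, ?_⟩
    rw [← symm_D hV hF a1']
    exact a7

end Pool.Agent.Helper18.CY
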